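import Mathlib
import Pool.Agent.Y327.Recur
import Pool.Agent.H715R2.Exit

/-! # Integral products of linear forms are isolated among the products with a positive minimum -/

open NumberField Filter Topology Matrix

set_option linter.unusedSectionVars false

namespace Pool.Agent.Q208.MT

open H715R2 Pool.Agent.Y327

variable {d : ℕ}

/-- a property which holds arbitrarily near a point holds along a sequence -/
lemma exists_seq_of_frequently {h : Matrix (Fin d) (Fin d) ℝ}
    {P : Matrix (Fin d) (Fin d) ℝ → Prop} (hP : ∃ᶠ g in 𝓝 h, P g) :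
    ∃ u : ℕ → Matrix (Fin d) (Fin d) ℝ, (∀ n, P (u n)) ∧ Tendsto u atTop (𝓝 h) :=
  exists_seq_of_mem_closure (S := {g | P g}) (mem_closure_iff_frequently.2 hP)

lemma isClosed_hasNu (ν : ℝ) : IsClosed {h : Matrix (Fin d) (Fin d) ℝ | HasNu h ν} := by
  have h1 : {h : Matrix (Fin d) (Fin d) ℝ | HasNu h ν} =
      ⋂ (m : Fin d → ℤ), ⋂ (_ : m ≠ 0), {h | ν ≤ |FF h (iR m)|} := by
    ext h
    simp [HasNu]
  rw [h1]
  exact isClosed_iInter fun m => isClosed_iInter fun _ =>
    isClosed_le continuous_const (continuous_abs.comp (continuous_FF (iR m)))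

lemma isClosed_absDet (V : ℝ) : IsClosed {h : Matrix (Fin d) (Fin d) ℝ | |h.det| = V} :=
  isClosed_eq (continuous_abs.comp continuous_det') continuous_const

/-- **Local isolation.** -/
theorem local_isolation (hd : 3 ≤ d) {h : Matrix (Fin d) (Fin d) ℝ} (hh : h.det ≠ 0) {ν : ℝ}
    (hν : 0 < ν) (hnu : HasNu h ν) (hP : PropInt h) :
    ∀ᶠ g in 𝓝 h, |g.det| = |h.det| → HasNu g ν →
      ∃ a : Fin d → ℝ, (∀ i, 0 < a i) ∧ ∏ i, a i = 1 ∧ g = diagonal a * h := by
  classical
  have hd0 : 0 < d := by omega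
  by_contra hcon
  rw [Filter.not_eventually] at hcon
  obtain ⟨u, hu, hlim⟩ := exists_seq_of_frequently hcon
  have hu1 : ∀ n, |(u n).det| = |h.det| := fun n => by
    have := hu n
    push Not at this
    exact this.1
  have hu2 : ∀ n, HasNu (u n) ν := fun n => by
    have := hu n
    push Not at this
    exact this.2.1
  have hu3 : ∀ n, ¬ ∃ a : Fin d → ℝ, (∀ i, 0 < a i) ∧ ∏ i, a i = 1 ∧ u n = diagonal a * h :=
    fun n hex => hu n fun _ _ => hex
  obtain ⟨K, hNF, D, t, B, c, hbij, hreal, hBc, hBdet, hgB⟩ := dat_of_propInt hd hh hν hnu hP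
  have hBu : IsUnit B.det := isUnit_iff_ne_zero.2 hBdet
  have hc0 : ∀ i, c i ≠ 0 := by
    intro i h0
    apply hh
    rw [hgB, det_mul, det_diagonal, Finset.prod_eq_zero (Finset.mem_univ i) h0, zero_mul]
  set E : ℕ → Matrix (Fin d) (Fin d) ℝ := fun n => u n * B⁻¹ with hE
  have hEB : ∀ n, E n * B = u n := by
    intro n
    simp only [hE]
    rw [Matrix.mul_assoc, Matrix.nonsing_inv_mul _ hBu, Matrix.mul_one]
  have hElim : Tendsto E atTop (𝓝 (diagonal c)) := by
    have h1 : Tendsto E atTop (𝓝 (h * B⁻¹)) := by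
      have hcont : Continuous (fun M : Matrix (Fin d) (Fin d) ℝ => M * B⁻¹) :=
        continuous_id.matrix_mul continuous_const
      exact (hcont.tendsto _).comp hlim
    rwa [hgB, Matrix.mul_assoc, Matrix.mul_nonsing_inv _ hBu, Matrix.mul_one] at h1
  -- some off-diagonal entry does not vanish for infinitely many `n`
  obtain ⟨⟨i₁, k₁⟩, hfreq⟩ : ∃ p : Fin d × Fin d, ∃ᶠ n in atTop, p.1 ≠ p.2 ∧ E n p.1 p.2 ≠ 0 := by
    by_contra hcon2
    rw [not_exists] at hcon2
    have h1 : ∀ᶠ n in atTop, ∀ p : Fin d × Fin d, ¬ (p.1 ≠ p.2 ∧ E n p.1 p.2 ≠ 0) :=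
      Filter.eventually_all.2 fun p => not_frequently.1 (hcon2 p)
    have h2 : ∀ᶠ n in atTop, ∀ i, 0 < E n i i / c i := by
      refine Filter.eventually_all.2 fun i => ?_
      have h3 : Tendsto (fun n => E n i i / c i) atTop (𝓝 (c i / c i)) := by
        have h4 := (continuous_apply_apply i i).tendsto (diagonal c) |>.comp hElim
        rw [diagonal_apply_eq] at h4
        exact h4.div_const _
      rw [div_self (hc0 i)] at h3
      exact h3.eventually (lt_mem_nhds one_pos)
    obtain ⟨n, hn1, hn2⟩ := (h1.and h2).exists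
    have hEn : E n = diagonal (fun i => E n i i) := by
      ext i k
      by_cases hik : i = k
      · rw [hik, diagonal_apply_eq]
      · rw [diagonal_apply_ne _ hik]
        by_contra hne
        exact hn1 (i, k) ⟨hik, hne⟩
    have hun : u n = diagonal (fun i => E n i i / c i) * h := by
      rw [← hEB, hgB, ← Matrix.mul_assoc, diagonal_mul_diagonal]
      congr 1
      rw [hEn]
      congr 1
      funext i
      rw [diagonal_apply_eq, div_mul_cancel₀ _ (hc0 i)]
    refine hu3 n ⟨fun i => E n i i / c i, hn2, ?_, hun⟩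
    have h3 : |∏ i, (E n i i / c i)| = 1 := by
      have h4 := hu1 n
      rw [hun, det_mul, det_diagonal, abs_mul] at h4
      have h5 : |h.det| ≠ 0 := abs_ne_zero.2 hh
      exact mul_right_cancel₀ h5 (by rw [h4, one_mul])
    rwa [abs_of_pos (Finset.prod_pos fun i _ => hn2 i)] at h3
  obtain ⟨hik1, -⟩ := hfreq.exists.choose_spec
  simp only at hik1
  obtain ⟨θ, hθinj, hθsum, hθlt⟩ := exists_theta hd0 i₁ k₁ hik1
  have hlim' : Tendsto u atTop (𝓝 (diagonal c * B)) := by rw [← hgB]; exact hlim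
  obtain ⟨h', φ, a, γ, T, R, hφ, ha0, ha1, hγ, hT, hTR, hlim2, hVV⟩ :=
    exit_lemma D t hbij hreal B c hBc hc0 hBdet u hlim' |h.det| (abs_pos.2 hh) hu1 i₁ k₁
      (hfreq.mono fun n hn => hn.2) θ hθinj hθsum hθlt
  have hnu' : HasNu h' ν := by
    refine (isClosed_hasNu ν).mem_of_tendsto hlim2 (Eventually.of_forall fun n => ?_)
    exact hasNu_closure (hu2 (φ n)) (subset_closure ⟨a n, γ n, ha0 n, ha1 n, hγ n, rfl⟩)
  obtain ⟨x, hx, hx1⟩ := dense_ne hd0 hVV 0 ν hν
  rw [sub_zero] at hx1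
  exact absurd (hnu' x hx) (not_le.2 hx1)

lemma polyF_diag (a : Fin d → ℝ) (h : Matrix (Fin d) (Fin d) ℝ) :
    polyF (diagonal a * h) = (∏ i, a i) • polyF h := by
  unfold polyF
  rw [MvPolynomial.smul_eq_C_mul, map_prod, ← Finset.prod_mul_distrib]
  refine Finset.prod_congr rfl fun i _ => ?_
  rw [Finset.mul_sum]
  refine Finset.sum_congr rfl fun j _ => ?_
  rw [diagonal_mul, map_mul, mul_assoc]

lemma propInt_diag {a : Fin d → ℝ} (ha : ∏ i, a i ≠ 0) {h : Matrix (Fin d) (Fin d) ℝ}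
    (hP : PropInt h) : PropInt (diagonal a * h) := by
  obtain ⟨c, hc, hz⟩ := hP
  refine ⟨c * (∏ i, a i)⁻¹, mul_ne_zero hc (inv_ne_zero ha), fun m => ?_⟩
  obtain ⟨z, hz⟩ := hz m
  refine ⟨z, ?_⟩
  have h1 : (c * (∏ i, a i)⁻¹) • polyF (diagonal a * h) = c • polyF h := by
    rw [polyF_diag, smul_smul, mul_assoc, inv_mul_cancel₀ ha, mul_one]
  rw [← hz]
  exact congrArg _ h1

/-- The counterexamples with given determinant and lower bound form a closed set. -/
theorem isClosed_counter (hd : 3 ≤ d) {V ν : ℝ} (hV : 0 < V) (hν : 0 < ν) :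
    IsClosed {h : Matrix (Fin d) (Fin d) ℝ | |h.det| = V ∧ HasNu h ν ∧ ¬ PropInt h} := by
  rw [← isOpen_compl_iff, isOpen_iff_eventually]
  intro h hh
  by_cases h1 : |h.det| = V ∧ HasNu h ν
  · have h2 : PropInt h := by
      by_contra h3
      exact hh ⟨h1.1, h1.2, h3⟩
    have hdet : h.det ≠ 0 := by
      rw [← abs_ne_zero, h1.1]; exact hV.ne'
    filter_upwards [local_isolation hd hdet hν h1.2 h2] with g hg hgc
    obtain ⟨a, ha0, ha1, hga⟩ := hg (by rw [hgc.1, h1.1]) hgc.2.1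
    apply hgc.2.2
    rw [hga]
    exact propInt_diag (by rw [ha1]; exact one_ne_zero) h2
  · have h2 : IsOpen {g : Matrix (Fin d) (Fin d) ℝ | |g.det| = V ∧ HasNu g ν}ᶜ :=
      ((isClosed_absDet V).inter (isClosed_hasNu ν)).isOpen_compl
    filter_upwards [h2.mem_nhds (show h ∈ _ from h1)] with g hg hgc
    exact hg ⟨hgc.1, hgc.2.1⟩

end Pool.Agent.Q208.MT
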