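import Mathlib
import Pool.Agent.Q208.MT.Iso
import Pool.Agent.Y327.Full
import Pool.Agent.H715R2.Uncountable
import Pool.Agent.TH314.CSD.Attain

/-! # Finitely many classes above the threshold, extremal counterexamples -/

open NumberField Filter Topology Matrix

set_option linter.unusedSectionVars false

namespace Pool.Agent.Q208.MT

open H715R2 Pool.Agent.Y327

variable {d : ℕ}

lemma HasNu.mono' {h : Matrix (Fin d) (Fin d) ℝ} {ν ν' : ℝ} (hnu : HasNu h ν) (hle : ν' ≤ ν) :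
    HasNu h ν' := fun m hm => hle.trans (hnu m hm)

lemma mem_orb_right (g : Matrix (Fin d) (Fin d) ℝ) {γ : Matrix (Fin d) (Fin d) ℤ}
    (hγ : IsUnit γ.det) : g * zR γ ∈ Orb g := by
  refine ⟨fun _ => 1, γ, fun _ => one_pos, by simp, hγ, ?_⟩
  have h4 : diagonal (fun _ : Fin d => (1 : ℝ)) = 1 := diagonal_one
  rw [h4, Matrix.one_mul]

/-- **Finiteness.** -/
theorem finite_classes (hd : 3 ≤ d) {V ν : ℝ} (hV : 0 < V) (hν : 0 < ν)
    (hall : ∀ h : Matrix (Fin d) (Fin d) ℝ, |h.det| = V → HasNu h ν → PropInt h) :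
    ∃ S : Finset (Matrix (Fin d) (Fin d) ℝ), ∀ g : Matrix (Fin d) (Fin d) ℝ, |g.det| = V →
      HasNu g ν → ∃ h ∈ S, ∃ γ : Matrix (Fin d) (Fin d) ℤ, IsUnit γ.det ∧
        ∀ x : Fin d → ℤ, FF g (iR x) = FF h (iR (γ *ᵥ x)) := by
  classical
  have hd0 : 0 < d := by omega
  obtain ⟨R, hR⟩ := exists_bound hd0 V ν hV hν
  set 𝒦 : Set (Matrix (Fin d) (Fin d) ℝ) :=
    {h | ∀ i j, |h i j| ≤ R} ∩ ({h | |h.det| = V} ∩ {h | HasNu h ν}) with h𝒦
  have hcpt : IsCompact 𝒦 :=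
    (isCompact_box R).inter_right ((isClosed_absDet V).inter (isClosed_hasNu ν))
  have hU : ∀ h ∈ 𝒦, {g : Matrix (Fin d) (Fin d) ℝ | |g.det| = |h.det| → HasNu g ν →
      ∃ a : Fin d → ℝ, (∀ i, 0 < a i) ∧ ∏ i, a i = 1 ∧ g = diagonal a * h} ∈ 𝓝 h := by
    intro h hh
    have hdet : |h.det| = V := hh.2.1
    exact local_isolation hd (by rw [← abs_ne_zero, hdet]; exact hV.ne') hν hh.2.2
      (hall h hdet hh.2.2)
  obtain ⟨S, hcov⟩ := hcpt.elim_nhds_subcover' (fun h hh => _) hU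
  refine ⟨S.image Subtype.val, fun g hg hgν => ?_⟩
  obtain ⟨γ, hγ, hγR⟩ := hR g hg hgν
  have hmem : g * zR γ ∈ closure (Orb g) := subset_closure (mem_orb_right g hγ)
  have h1 : g * zR γ ∈ 𝒦 := ⟨hγR, by
    show |(g * zR γ).det| = V
    rw [abs_det_closure hmem, hg], hasNu_closure hgν hmem⟩
  obtain ⟨h, hhS, hgh⟩ := Set.mem_iUnion₂.1 (hcov h1)
  obtain ⟨a, ha0, ha1, hga⟩ := hgh (by
    have h2 : |h.1.det| = V := h.2.2.1
    rw [h2]
    exact h1.2.1) h1.2.2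
  refine ⟨h.1, Finset.mem_image_of_mem _ hhS, γ⁻¹, ?_, fun x => ?_⟩
  · rw [Matrix.isUnit_nonsing_inv_det_iff]; exact hγ
  · have h2 : FF (g * zR γ) (iR (γ⁻¹ *ᵥ x)) = FF h.1 (iR (γ⁻¹ *ᵥ x)) := by
      rw [hga, FF_diag_mul, ha1, one_mul]
    rw [← h2, FF_mul, zR_mulVec_iR, mulVec_mulVec, Matrix.mul_nonsing_inv _ hγ, one_mulVec]

/-- **Extremal counterexamples.** -/
theorem exists_extremal (hd : 3 ≤ d) {V : ℝ} (hV : 0 < V) {ν₀ : ℝ} (hν₀ : 0 < ν₀)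
    {g₀ : Matrix (Fin d) (Fin d) ℝ} (hg₀ : |g₀.det| = V) (hnu₀ : HasNu g₀ ν₀)
    (hint₀ : ¬ PropInt g₀) :
    ∃ m : ℝ, 0 < m ∧ (∃ h : Matrix (Fin d) (Fin d) ℝ, |h.det| = V ∧ HasNu h m ∧ ¬ PropInt h) ∧
      ∀ (g : Matrix (Fin d) (Fin d) ℝ) (ν : ℝ), |g.det| = V → HasNu g ν → ¬ PropInt g → ν ≤ m := by
  classical
  have hd0 : 0 < d := by omega
  obtain ⟨T, hT⟩ : ∃ T : ℝ, (d.factorial : ℝ) * V < (d : ℝ) ^ d * T := by
    have h1 : (0 : ℝ) < (d : ℝ) ^ d := by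
      have : (0 : ℝ) < d := by exact_mod_cast hd0
      positivity
    refine ⟨((d.factorial : ℝ) * V + 1) / (d : ℝ) ^ d, ?_⟩
    rw [mul_div_cancel₀ _ h1.ne']
    linarith
  set S : Set ℝ := {ν | ∃ g : Matrix (Fin d) (Fin d) ℝ, |g.det| = V ∧ HasNu g ν ∧ ¬ PropInt g}
    with hS
  have hSne : ν₀ ∈ S := ⟨g₀, hg₀, hnu₀, hint₀⟩
  have hSb : BddAbove S := by
    refine ⟨T, ?_⟩
    rintro ν ⟨g, hg, hgν, -⟩
    obtain ⟨x, hx, hx1⟩ := mink_prod hd0 V T hV hT g hg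
    exact (hgν x hx).trans hx1.le
  set m : ℝ := sSup S with hm
  have hm0 : 0 < m := hν₀.trans_le (le_csSup hSb hSne)
  refine ⟨m, hm0, ?_, fun g ν hg hgν hgP => le_csSup hSb ⟨g, hg, hgν, hgP⟩⟩
  have hseq : ∀ n : ℕ, ∃ ν ∈ S, m * (1 - 1 / ((n : ℝ) + 2)) < ν := by
    intro n
    apply exists_lt_of_lt_csSup ⟨_, hSne⟩
    have h1 : (0 : ℝ) < 1 / ((n : ℝ) + 2) := by positivity
    nlinarith
  choose ν hνS hν using hseq
  choose g hgV hgν hgP using hνS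
  have hle : ∀ n : ℕ, m / 2 ≤ m * (1 - 1 / ((n : ℝ) + 2)) := by
    intro n
    have h1 : 1 / ((n : ℝ) + 2) ≤ 1 / 2 := by
      apply one_div_le_one_div_of_le (by norm_num)
      have : (0 : ℝ) ≤ n := Nat.cast_nonneg n
      linarith
    nlinarith
  obtain ⟨R, hR⟩ := exists_bound hd0 V (m / 2) hV (by positivity)
  choose γ hγ hγR using fun n => hR (g n) (hgV n)
    (HasNu.mono' (hgν n) ((hle n).trans (hν n).le))
  set k : ℕ → Matrix (Fin d) (Fin d) ℝ := fun n => g n * zR (γ n) with hk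
  have hkmem : ∀ n, k n ∈ closure (Orb (g n)) := fun n => subset_closure (mem_orb_right _ (hγ n))
  have hdetg : ∀ n, (g n).det ≠ 0 := fun n => by
    rw [← abs_ne_zero, hgV n]; exact hV.ne'
  have hkν : ∀ n, HasNu (k n) (m * (1 - 1 / ((n : ℝ) + 2))) := fun n =>
    hasNu_closure (HasNu.mono' (hgν n) (hν n).le) (hkmem n)
  have hνpos : ∀ n, 0 < ν n := fun n => (by positivity : 0 < m / 2).trans_le
    ((hle n).trans (hν n).le)
  set 𝒦 : Set (Matrix (Fin d) (Fin d) ℝ) := {h | ∀ i j, |h i j| ≤ R} ∩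
    {h | |h.det| = V ∧ HasNu h (m / 2) ∧ ¬ PropInt h} with h𝒦
  have hcpt : IsCompact 𝒦 :=
    (isCompact_box R).inter_right (isClosed_counter hd hV (by positivity))
  have hk𝒦 : ∀ n, k n ∈ 𝒦 := fun n => ⟨hγR n, by
    rw [abs_det_closure (hkmem n), hgV n], HasNu.mono' (hkν n) (hle n),
    not_propInt_closure hd (hdetg n) (hνpos n) (hgν n) (hgP n) (hkmem n)⟩
  obtain ⟨h, hh, φ, hφ, hlim⟩ := hcpt.tendsto_subseq hk𝒦
  refine ⟨h, hh.2.1, fun x hx => ?_, hh.2.2.2⟩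
  have h1 : Tendsto (fun n => |FF (k (φ n)) (iR x)|) atTop (𝓝 |FF h (iR x)|) :=
    ((continuous_abs.comp (continuous_FF (iR x))).tendsto h).comp hlim
  have h2 : Tendsto (fun n : ℕ => m * (1 - 1 / (((φ n : ℕ) : ℝ) + 2))) atTop (𝓝 m) := by
    have h3 : Tendsto (fun n : ℕ => 1 / ((n : ℝ) + 2)) atTop (𝓝 0) := by
      have h4 : Tendsto (fun n : ℕ => (n : ℝ) + 2) atTop atTop :=
        tendsto_atTop_add_const_right _ _ tendsto_natCast_atTop_atTop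
      have h5 := tendsto_inv_atTop_zero.comp h4
      refine h5.congr fun n => ?_
      rw [one_div]
      rfl
    have h5 := (tendsto_const_nhds (x := (1 : ℝ)) (f := (atTop : Filter ℕ))).sub h3
    have h6 := (h5.const_mul m).comp hφ.tendsto_atTop
    rw [sub_zero, mul_one] at h6
    exact h6
  exact le_of_tendsto_of_tendsto' h2 h1 fun n => hkν (φ n) x hx

end Pool.Agent.Q208.MT
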