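import Mathlib
import Pool.Agent.Q208.MT.Thr

/-! # One invariant plane -/

open NumberField Filter Topology Matrix

set_option linter.unusedSectionVars false

namespace Pool.Agent.Q208.MT

open H715R2 Pool.Agent.Y327

variable {d : ℕ}

/-- an invariant hyperplane gives an eigenrow -/
lemma eigenrow {r : Fin d → ℝ} (hr : r ≠ 0) {A : Matrix (Fin d) (Fin d) ℝ}
    (hA : ∀ x : Fin d → ℝ, ∑ j, r j * x j = 0 → ∑ j, r j * (A *ᵥ x) j = 0) :
    ∃ lam : ℝ, r ᵥ* A = lam • r := by
  classical
  obtain ⟨j₀, hj₀⟩ : ∃ j₀, r j₀ ≠ 0 := by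
    by_contra hcon
    push Not at hcon
    exact hr (funext hcon)
  refine ⟨(r ᵥ* A) j₀ / r j₀, funext fun j => ?_⟩
  have h1 : ∀ x : Fin d → ℝ, ∑ j, r j * (A *ᵥ x) j = (r ᵥ* A) ⬝ᵥ x := by
    intro x
    rw [← Matrix.dotProduct_mulVec]
    rfl
  have h2 := hA (r j₀ • Pi.single j (1 : ℝ) - r j • Pi.single j₀ (1 : ℝ)) (by
    have h3 : ∑ k, r k * (r j₀ • Pi.single j (1 : ℝ) - r j • Pi.single j₀ (1 : ℝ) : Fin d → ℝ) k =
        r ⬝ᵥ (r j₀ • Pi.single j (1 : ℝ) - r j • Pi.single j₀ (1 : ℝ)) := rfl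
    rw [h3, dotProduct_sub, dotProduct_smul, dotProduct_smul, dotProduct_single_one,
      dotProduct_single_one, smul_eq_mul, smul_eq_mul]
    ring)
  rw [h1, dotProduct_sub, dotProduct_smul, dotProduct_smul, dotProduct_single_one,
    dotProduct_single_one, smul_eq_mul, smul_eq_mul] at h2
  rw [Pi.smul_apply, smul_eq_mul]
  field_simp
  linarith

lemma isIntegral_of_eigenrow {r : Fin d → ℝ} (hr : r ≠ 0) {A : Matrix (Fin d) (Fin d) ℤ}
    {lam : ℝ} (hA : r ᵥ* zR A = lam • r) :
    Polynomial.aeval lam (A.charpoly.map (Int.castRingHom ℚ)) = 0 := by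
  have hdetR : (Matrix.scalar (Fin d) lam - zR A).det = 0 := by
    rw [← Matrix.exists_vecMul_eq_zero_iff]
    refine ⟨r, hr, ?_⟩
    rw [Matrix.vecMul_sub, hA]
    funext j
    simp [Matrix.scalar_apply]
  rw [Polynomial.aeval_def, ← Polynomial.eval_map, Polynomial.map_map]
  have h1 : A.charpoly.map ((algebraMap ℚ ℝ).comp (Int.castRingHom ℚ)) = (zR A).charpoly := by
    rw [← Matrix.charpoly_map]
    congr 1
  rw [h1, Matrix.eval_charpoly, hdetR]

open IntermediateField in
/-- the coefficients of a linear form which is an eigenrow of an integer matrix -/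
theorem row_field {r : Fin d → ℝ} (hd : 0 < d)
    (hind : ∀ m : Fin d → ℤ, ∑ j, r j * (m j : ℝ) = 0 → m = 0)
    {A : Matrix (Fin d) (Fin d) ℤ} {lam : ℝ} (hA : r ᵥ* zR A = lam • r) :
    IsIntegral ℚ lam ∧ Module.finrank ℚ ℚ⟮lam⟯ ∣ d ∧
      (Module.finrank ℚ ℚ⟮lam⟯ = d → ∃ s : ℝ, s ≠ 0 ∧ ∀ j, s * r j ∈ ℚ⟮lam⟯) := by
  classical
  have hr : r ≠ 0 := by
    rintro rfl
    have h1 := hind (fun _ => 1) (by simp)
    exact one_ne_zero (congrFun h1 ⟨0, hd⟩)
  have hint : IsIntegral ℚ lam :=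
    ⟨_, (Matrix.charpoly_monic A).map _, isIntegral_of_eigenrow hr hA⟩
  have hfin : FiniteDimensional ℚ ℚ⟮lam⟯ := adjoin.finiteDimensional hint
  have hli : LinearIndependent ℚ r := by
    rw [← LinearIndependent.iff_fractionRing ℤ ℚ]
    rw [Fintype.linearIndependent_iff]
    intro m hm
    have h1 : ∑ j, r j * (m j : ℝ) = 0 := by
      rw [← hm]
      refine Finset.sum_congr rfl fun j _ => ?_
      rw [zsmul_eq_mul]
      ring
    have h2 := hind m h1
    intro j
    rw [h2]; rfl
  -- the rational span of the coefficients is stable under multiplication by the field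
  set W : Submodule ℚ ℝ := Submodule.span ℚ (Set.range r) with hW
  have hlamW : ∀ w ∈ W, lam * w ∈ W := by
    intro w hw
    induction hw using Submodule.span_induction with
    | mem x hx =>
      obtain ⟨j, rfl⟩ := hx
      have h1 : lam * r j = ∑ i, (A i j : ℚ) • r i := by
        have h2 := congrFun hA j
        rw [Pi.smul_apply, smul_eq_mul] at h2
        rw [← h2]
        simp only [Matrix.vecMul, dotProduct, zR, Matrix.map_apply]
        refine Finset.sum_congr rfl fun i _ => ?_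
        rw [Rat.smul_def]
        push_cast
        ring
      rw [h1]
      exact Submodule.sum_mem _ fun i _ =>
        Submodule.smul_mem _ _ (Submodule.subset_span ⟨i, rfl⟩)
    | zero => rw [mul_zero]; exact Submodule.zero_mem _
    | add x y _ _ hx hy => rw [mul_add]; exact Submodule.add_mem _ hx hy
    | smul q x _ hx =>
      rw [mul_smul_comm]
      exact Submodule.smul_mem _ _ hx
  let S : Subalgebra ℚ ℝ :=
    { carrier := {z | ∀ w ∈ W, z * w ∈ W}
      mul_mem' := fun {a b} ha hb w hw => by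
        rw [mul_assoc]; exact ha _ (hb w hw)
      add_mem' := fun {a b} ha hb w hw => by
        rw [add_mul]; exact Submodule.add_mem _ (ha w hw) (hb w hw)
      algebraMap_mem' := fun q w hw => by
        rw [← Algebra.smul_def]; exact Submodule.smul_mem _ _ hw }
  have hKS : ∀ z ∈ ℚ⟮lam⟯, ∀ w ∈ W, z * w ∈ W := by
    intro z hz
    have h1 : z ∈ ℚ⟮lam⟯.toSubalgebra := hz
    rw [adjoin_simple_toSubalgebra_of_isAlgebraic hint.isAlgebraic] at h1
    have h2 : Algebra.adjoin ℚ {lam} ≤ S := Algebra.adjoin_le (by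
      rintro _ rfl
      exact hlamW)
    exact h2 h1
  let V : Submodule ℚ⟮lam⟯ ℝ :=
    { carrier := W
      add_mem' := fun ha hb => W.add_mem ha hb
      zero_mem' := W.zero_mem
      smul_mem' := fun c x hx => hKS c.1 c.2 x hx }
  have hWd : Module.finrank ℚ W = d := by
    rw [hW, finrank_span_eq_card hli, Fintype.card_fin]
  have hVd : Module.finrank ℚ V = d := by
    rw [← hWd]
    exact LinearEquiv.finrank_eq
      { toFun := fun x : V => (⟨x.1, x.2⟩ : W)
        invFun := fun x : W => (⟨x.1, x.2⟩ : V)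
        map_add' := fun _ _ => rfl
        map_smul' := fun _ _ => rfl
        left_inv := fun _ => rfl
        right_inv := fun _ => rfl }
  have hmul := Module.finrank_mul_finrank ℚ ℚ⟮lam⟯ V
  rw [hVd] at hmul
  refine ⟨hint, ⟨_, hmul.symm⟩, fun hK => ?_⟩
  have hV1 : Module.finrank ℚ⟮lam⟯ V = 1 := by
    rw [hK] at hmul
    exact Nat.eq_of_mul_eq_mul_left hd (by rw [hmul, mul_one])
  obtain ⟨v, hv0, hv⟩ := finrank_eq_one_iff'.1 hV1
  have hv0' : (v : ℝ) ≠ 0 := fun h => hv0 (Subtype.ext h)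
  refine ⟨(v : ℝ)⁻¹, inv_ne_zero hv0', fun j => ?_⟩
  obtain ⟨c, hc⟩ := hv ⟨r j, Submodule.subset_span ⟨j, rfl⟩⟩
  have h1 : (c : ℝ) * (v : ℝ) = r j := congrArg (fun w : V => (w : ℝ)) hc
  have h2 : (v : ℝ)⁻¹ * r j = c := by
    rw [← h1, mul_comm (c : ℝ), ← mul_assoc, inv_mul_cancel₀ hv0', one_mul]
  rw [h2]
  exact c.2

/-- a point of the orbit closure with a row with coefficients in a field of degree `d` -/
theorem propInt_of_row (hd : 3 ≤ d) {g h : Matrix (Fin d) (Fin d) ℝ} (hg : g.det ≠ 0) {ν : ℝ}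
    (hν : 0 < ν) (hnu : HasNu g ν) (hh : h ∈ closure (Orb g)) (i : Fin d)
    {A : Matrix (Fin d) (Fin d) ℤ} {lam : ℝ} (hA : h i ᵥ* zR A = lam • h i)
    (hK : Module.finrank ℚ (IntermediateField.adjoin ℚ {lam}) = d) : PropInt g := by
  have hhν := hasNu_closure hnu hh
  obtain ⟨hint, -, hs⟩ := row_field (by omega) (fun m hm => by
    by_contra hm0
    have h2 := hhν m hm0
    have h3 : (h *ᵥ iR m) i = 0 := hm
    rw [FF_eq, Finset.prod_eq_zero (Finset.mem_univ i) h3, abs_zero] at h2
    exact absurd h2 (not_le.2 hν)) hA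
  obtain ⟨s, hs0, hs⟩ := hs hK
  have hfin : FiniteDimensional ℚ (IntermediateField.adjoin ℚ {lam}) :=
    IntermediateField.adjoin.finiteDimensional hint
  rcases limit_alg hd hg hh i s hs0 _ hK.le hs with h2 | h2 | h2
  · obtain ⟨x, hx, hx0⟩ := h2
    have h3 := hhν x hx
    have h4 : (h *ᵥ iR x) i = 0 := hx0
    rw [FF_eq, Finset.prod_eq_zero (Finset.mem_univ i) h4, abs_zero] at h3
    exact absurd h3 (not_le.2 hν)
  · exact h2
  · obtain ⟨x, hx, hx1⟩ := dense_ne (by omega) h2 0 ν hν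
    rw [sub_zero] at hx1
    exact absurd (hnu x hx) (not_le.2 hx1)

/-- **One eigenrow implies that all rows are eigenrows.** -/
theorem all_rows (hd : 3 ≤ d) {g : Matrix (Fin d) (Fin d) ℝ} (hg : g.det ≠ 0) {ν : ℝ}
    (hν : 0 < ν) (hnu : HasNu g ν) (i : Fin d)
    {A : Matrix (Fin d) (Fin d) ℤ} {lam : ℝ} (hA : g i ᵥ* zR A = lam • g i)
    (hK : Module.finrank ℚ (IntermediateField.adjoin ℚ {lam}) = d) :
    PropInt g ∧ ∃ mu : Fin d → ℝ, g * zR A = diagonal mu * g := by
  classical
  have hP := propInt_of_row hd hg hν hnu (subset_closure (mem_orb_self g)) i hA hK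
  refine ⟨hP, ?_⟩
  have hnz : ∀ p : Fin d → ℤ, p ≠ 0 → FF g (iR p) ≠ 0 := by
    intro p hp h0
    have h1 := hnu p hp
    rw [h0, abs_zero] at h1
    exact absurd h1 (not_le.2 hν)
  obtain ⟨B, -, hB1, -, hB2⟩ := Pool.Agent.H905R2.Opp.oppA g (by omega) hg hP hnz
  obtain ⟨lamB, hlamB, hBg⟩ := eig_of_opp hg hB1 hB2
  have hBrow : g i ᵥ* zR B = lamB i • g i := by
    funext j
    have h1 := congrFun (congrFun hBg i) j
    rw [Matrix.diagonal_mul] at h1
    exact h1
  have hcomm : A * B = B * A := by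
    have h1 : g i ᵥ* zR (A * B - B * A) = 0 := by
      have h2 : zR (A * B - B * A) = zR A * zR B - zR B * zR A := by
        rw [← zR_mul, ← zR_mul]
        ext a b
        simp [zR]
      rw [h2, Matrix.vecMul_sub, ← Matrix.vecMul_vecMul, ← Matrix.vecMul_vecMul, hA, hBrow,
        Matrix.smul_vecMul, Matrix.smul_vecMul, hA, hBrow, smul_smul, smul_smul, mul_comm, sub_self]
    exact sub_eq_zero.1 (row_indep hν hnu i _ h1)
  have hu : IsUnit g.det := isUnit_iff_ne_zero.2 hg
  have hgg : g * g⁻¹ = 1 := Matrix.mul_nonsing_inv _ hu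
  have hgg' : g⁻¹ * g = 1 := Matrix.nonsing_inv_mul _ hu
  set X : Matrix (Fin d) (Fin d) ℝ := g * zR A * g⁻¹ with hX
  have hXg : X * g = g * zR A := by
    rw [hX, Matrix.mul_assoc, hgg', Matrix.mul_one]
  have hXc : X * diagonal lamB = diagonal lamB * X := by
    have h1 : X * diagonal lamB * g = diagonal lamB * X * g := by
      rw [Matrix.mul_assoc, ← hBg, ← Matrix.mul_assoc, hXg, Matrix.mul_assoc, ← zR_mul, hcomm,
        zR_mul, ← Matrix.mul_assoc, hBg, Matrix.mul_assoc, Matrix.mul_assoc, hXg]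
    have h2 := congrArg (fun M => M * g⁻¹) h1
    simp only [Matrix.mul_assoc, hgg, Matrix.mul_one] at h2
    exact h2
  have hXoff : ∀ a b, a ≠ b → X a b = 0 := by
    intro a b hab
    have h1 := congrFun (congrFun hXc a) b
    rw [Matrix.mul_diagonal, Matrix.diagonal_mul] at h1
    have h2 : X a b * (lamB b - lamB a) = 0 := by linarith
    rcases mul_eq_zero.1 h2 with h3 | h3
    · exact h3
    · exact absurd (hlamB (sub_eq_zero.1 h3)) hab.symm
  refine ⟨fun a => X a a, ?_⟩
  rw [← hXg]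
  congr 1
  ext a b
  by_cases hab : a = b
  · subst hab; simp
  · rw [Matrix.diagonal_apply_ne _ hab, hXoff a b hab]

/-- a matrix which is diagonal in a real basis has real eigenvalues -/
lemma real_eigenvalues {g : Matrix (Fin d) (Fin d) ℝ} (hg : g.det ≠ 0)
    {A : Matrix (Fin d) (Fin d) ℤ} {mu : Fin d → ℝ} (hA : g * zR A = diagonal mu * g) (z : ℂ)
    (hz : Polynomial.aeval z A.charpoly = 0) : z.im = 0 := by
  classical
  have h1 : (Matrix.scalar (Fin d) z - A.map (Int.castRingHom ℂ)).det = 0 := by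
    rw [← Matrix.eval_charpoly, Matrix.charpoly_map, Polynomial.eval_map]
    exact hz
  have h2 : (g.map Complex.ofRealHom).det ≠ 0 := by
    have h3 := (RingHom.map_det Complex.ofRealHom g).symm
    have h4 : (g.map Complex.ofRealHom).det = ((g.det : ℝ) : ℂ) := h3
    rw [h4]
    exact_mod_cast hg
  have h3 : g.map Complex.ofRealHom * A.map (Int.castRingHom ℂ) =
      diagonal (fun i => (mu i : ℂ)) * g.map Complex.ofRealHom := by
    have h4 := congrArg (fun M : Matrix (Fin d) (Fin d) ℝ => M.map Complex.ofRealHom) hA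
    simp only [Matrix.map_mul] at h4
    have h5 : (zR A).map Complex.ofRealHom = A.map (Int.castRingHom ℂ) := by
      ext i j
      simp [zR]
    have h6 : (diagonal mu : Matrix (Fin d) (Fin d) ℝ).map Complex.ofRealHom =
        diagonal (fun i => (mu i : ℂ)) := by
      ext i j
      by_cases hij : i = j
      · subst hij; simp
      · simp [Matrix.diagonal_apply_ne _ hij]
    rwa [h5, h6] at h4
  have h4 : g.map Complex.ofRealHom * (Matrix.scalar (Fin d) z - A.map (Int.castRingHom ℂ)) =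
      diagonal (fun i => z - (mu i : ℂ)) * g.map Complex.ofRealHom := by
    rw [Matrix.mul_sub, h3]
    have h5 : (diagonal (fun i => z - (mu i : ℂ)) : Matrix (Fin d) (Fin d) ℂ) =
        Matrix.scalar (Fin d) z - diagonal (fun i => (mu i : ℂ)) := by
      ext i j
      by_cases hij : i = j
      · subst hij; simp
      · simp [hij]
    rw [h5, Matrix.sub_mul]
    congr 1
    ext i j
    simp [Matrix.scalar_apply, Matrix.mul_diagonal, Matrix.diagonal_mul, mul_comm]
  have h5 := congrArg Matrix.det h4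
  rw [Matrix.det_mul, h1, mul_zero, Matrix.det_mul, Matrix.det_diagonal] at h5
  have h6 := (mul_eq_zero.1 h5.symm).resolve_right h2
  obtain ⟨i, -, hi⟩ := Finset.prod_eq_zero_iff.1 h6
  rw [sub_eq_zero.1 hi]
  exact Complex.ofReal_im _

/-- the degree of the field of an eigenvalue -/
lemma finrank_of_irreducible {r : Fin d → ℝ} (hr : r ≠ 0) {A : Matrix (Fin d) (Fin d) ℤ}
    {lam : ℝ} (hA : r ᵥ* zR A = lam • r)
    (hirr : Irreducible (A.charpoly.map (Int.castRingHom ℚ))) :
    Module.finrank ℚ (IntermediateField.adjoin ℚ {lam}) = d := by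
  have h1 := isIntegral_of_eigenrow hr hA
  have hm : (A.charpoly.map (Int.castRingHom ℚ)).Monic := (Matrix.charpoly_monic A).map _
  have hint : IsIntegral ℚ lam := ⟨_, hm, h1⟩
  rw [IntermediateField.adjoin.finrank hint, ← minpoly.eq_of_irreducible_of_monic hirr h1 hm,
    (Matrix.charpoly_monic A).natDegree_map, Matrix.charpoly_natDegree_eq_dim, Fintype.card_fin]

lemma irreducible_of_finrank {r : Fin d → ℝ} (hr : r ≠ 0) {A : Matrix (Fin d) (Fin d) ℤ}
    {lam : ℝ} (hA : r ᵥ* zR A = lam • r)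
    (hK : Module.finrank ℚ (IntermediateField.adjoin ℚ {lam}) = d) :
    Irreducible (A.charpoly.map (Int.castRingHom ℚ)) := by
  have h1 := isIntegral_of_eigenrow hr hA
  have hm : (A.charpoly.map (Int.castRingHom ℚ)).Monic := (Matrix.charpoly_monic A).map _
  have hint : IsIntegral ℚ lam := ⟨_, hm, h1⟩
  rw [IntermediateField.adjoin.finrank hint] at hK
  have h2 : A.charpoly.map (Int.castRingHom ℚ) = minpoly ℚ lam := by
    refine Polynomial.eq_of_monic_of_dvd_of_natDegree_le (minpoly.monic hint) hm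
      (minpoly.dvd ℚ lam h1) ?_
    rw [hK, (Matrix.charpoly_monic A).natDegree_map, Matrix.charpoly_natDegree_eq_dim,
      Fintype.card_fin]
  rw [h2]
  exact minpoly.irreducible hint

/-- prime dimension -/
lemma finrank_of_prime {r : Fin d → ℝ} (hd : d.Prime)
    (hind : ∀ m : Fin d → ℤ, ∑ j, r j * (m j : ℝ) = 0 → m = 0)
    {A : Matrix (Fin d) (Fin d) ℤ} {lam : ℝ} (hA : r ᵥ* zR A = lam • r)
    (hns : ∀ z : ℤ, A ≠ z • (1 : Matrix (Fin d) (Fin d) ℤ)) :
    Module.finrank ℚ (IntermediateField.adjoin ℚ {lam}) = d := by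
  classical
  obtain ⟨hint, hdvd, -⟩ := row_field hd.pos hind hA
  rcases (Nat.dvd_prime hd).1 hdvd with h1 | h1
  swap
  · exact h1
  exfalso
  rw [IntermediateField.finrank_eq_one_iff, IntermediateField.adjoin_simple_eq_bot_iff,
    IntermediateField.mem_bot] at h1
  obtain ⟨q, hq⟩ := h1
  have hq' : lam = (q : ℝ) := by rw [← hq]; rfl
  -- `q.den • A = q.num`
  have hcol : ∀ j, (fun i => (q.den : ℤ) * A i j - if i = j then q.num else 0) = 0 := by
    intro j
    apply hind
    have h2 := congrFun hA j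
    simp only [Matrix.vecMul, dotProduct, zR, Matrix.map_apply, Pi.smul_apply, smul_eq_mul] at h2
    have h3 : (q.den : ℝ) * lam = q.num := by
      rw [hq']
      have := Rat.den_mul_eq_num q
      exact_mod_cast this
    have h4 : ∑ i, r i * (((q.den : ℤ) * A i j - if i = j then q.num else 0 : ℤ) : ℝ) =
        (q.den : ℝ) * ∑ i, r i * (A i j : ℝ) - r j * q.num := by
      push_cast
      simp only [mul_sub, Finset.sum_sub_distrib, mul_ite, mul_zero]
      rw [Finset.sum_ite_eq' Finset.univ j]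
      simp only [Finset.mem_univ, if_true]
      rw [Finset.mul_sum]
      congr 1
      exact Finset.sum_congr rfl fun i _ => by ring
    rw [h4, h2, ← h3]
    ring
  have hden : (q.den : ℤ) ≠ 0 := by exact_mod_cast q.den_nz
  have i₀ : Fin d := ⟨0, hd.pos⟩
  apply hns (A i₀ i₀)
  ext i j
  rw [Matrix.smul_apply, smul_eq_mul]
  by_cases hij : i = j
  · subst hij
    rw [Matrix.one_apply_eq, mul_one]
    have h2 := congrFun (hcol i) i
    have h3 := congrFun (hcol i₀) i₀
    simp only [if_true, Pi.zero_apply] at h2 h3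
    exact mul_left_cancel₀ hden (by linarith)
  · rw [Matrix.one_apply_ne hij, mul_zero]
    have h2 := congrFun (hcol j) i
    simp only [if_neg hij, Pi.zero_apply, sub_zero] at h2
    exact (mul_eq_zero.1 h2).resolve_left hden

end Pool.Agent.Q208.MT
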