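import Mathlib
import Pool.Agent.Q208.MT.Plane

/-! # Products of linear forms with a common factor -/

open NumberField Filter Topology Matrix

set_option linter.unusedSectionVars false

namespace Pool.Agent.Q208.MT

open H715R2 Pool.Agent.Y327

variable {d : ℕ}

lemma inv_of_eigenrow {r : Fin d → ℝ} {A : Matrix (Fin d) (Fin d) ℤ} {lam : ℝ}
    (hA : r ᵥ* zR A = lam • r) (x : Fin d → ℝ) (hx : ∑ j, r j * x j = 0) :
    ∑ j, r j * ((A.map (Int.cast : ℤ → ℝ)).mulVec x) j = 0 := by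
  have h1 : ∑ j, r j * ((A.map (Int.cast : ℤ → ℝ)).mulVec x) j = (r ᵥ* zR A) ⬝ᵥ x := by
    rw [← Matrix.dotProduct_mulVec]
    rfl
  rw [h1, hA, smul_dotProduct]
  have h2 : r ⬝ᵥ x = 0 := hx
  rw [h2, smul_zero]

lemma row_of_mul {g : Matrix (Fin d) (Fin d) ℝ} {A : Matrix (Fin d) (Fin d) ℤ} {lam : Fin d → ℝ}
    (hA : g * zR A = diagonal lam * g) (i : Fin d) : g i ᵥ* zR A = lam i • g i := by
  funext j
  have h1 := congrFun (congrFun hA i) j
  rw [Matrix.diagonal_mul] at h1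
  exact h1

/-- **A common factor.** -/
theorem common_factor (hd : 3 ≤ d) {g g' : Matrix (Fin d) (Fin d) ℝ} (hg : g.det ≠ 0)
    (hg' : g'.det ≠ 0) {ν : ℝ} (hν : 0 < ν) (hnu' : HasNu g' ν)
    {A : Matrix (Fin d) (Fin d) ℤ} (hirr : Irreducible (A.charpoly.map (Int.castRingHom ℚ)))
    (hinv : ∀ i : Fin d, ∀ x : Fin d → ℝ, ∑ j, g i j * x j = 0 →
      ∑ j, g i j * ((A.map (Int.cast : ℤ → ℝ)).mulVec x) j = 0)
    {i i' : Fin d} {c : ℝ} (hc : g' i' = c • g i) :
    PropInt g' ∧ ∃ (σ : Equiv.Perm (Fin d)) (a : Fin d → ℝ), ∀ k, g' k = a k • g (σ k) := by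
  classical
  obtain ⟨lam, hlam, hAg⟩ := eig_of_opp hg hirr hinv
  have hrow : g' i' ᵥ* zR A = lam i • g' i' := by
    rw [hc, Matrix.smul_vecMul, row_of_mul hAg i, smul_comm]
  have hr : g' i' ≠ 0 := fun h0 =>
    hg' (Matrix.det_eq_zero_of_row_eq_zero i' fun j => congrFun h0 j)
  obtain ⟨hP, mu, hmu⟩ := all_rows hd hg' hν hnu' i' hrow (finrank_of_irreducible hr hrow hirr)
  refine ⟨hP, ?_⟩
  obtain ⟨lam', hlam', hAg'⟩ := eig_of_opp hg' hirr
    (fun k => inv_of_eigenrow (row_of_mul hmu k))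
  have hu : IsUnit g.det := isUnit_iff_ne_zero.2 hg
  have hgg : g * g⁻¹ = 1 := Matrix.mul_nonsing_inv _ hu
  have hgg' : g⁻¹ * g = 1 := Matrix.nonsing_inv_mul _ hu
  set M : Matrix (Fin d) (Fin d) ℝ := g' * g⁻¹ with hM
  have hMg : M * g = g' := by rw [hM, Matrix.mul_assoc, hgg', Matrix.mul_one]
  have hMl : M * diagonal lam = diagonal lam' * M := by
    have h1 : M * diagonal lam * g = diagonal lam' * M * g := by
      rw [Matrix.mul_assoc, ← hAg, ← Matrix.mul_assoc, hMg, hAg', Matrix.mul_assoc, hMg]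
    have h2 := congrArg (fun X => X * g⁻¹) h1
    simp only [Matrix.mul_assoc, hgg, Matrix.mul_one] at h2
    exact h2
  have hentry : ∀ k j, M k j ≠ 0 → lam j = lam' k := by
    intro k j hkj
    have h1 := congrFun (congrFun hMl k) j
    rw [Matrix.mul_diagonal, Matrix.diagonal_mul] at h1
    have h2 : M k j * (lam j - lam' k) = 0 := by linarith
    exact sub_eq_zero.1 ((mul_eq_zero.1 h2).resolve_left hkj)
  have hex : ∀ k, ∃ j, M k j ≠ 0 := by
    intro k
    by_contra hcon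
    push Not at hcon
    apply hg'
    rw [← hMg, Matrix.det_mul, Matrix.det_eq_zero_of_row_eq_zero k hcon, zero_mul]
  choose s hs using hex
  have hsinj : Function.Injective s := by
    intro k k' hkk
    have h1 := hentry k (s k) (hs k)
    have h2 := hentry k' (s k') (hs k')
    rw [← hkk, h1] at h2
    exact hlam' h2
  have hsbij : Function.Bijective s := Finite.injective_iff_bijective.1 hsinj
  refine ⟨Equiv.ofBijective s hsbij, fun k => M k (s k), fun k => ?_⟩
  have h1 : g' k = ∑ j, M k j • g j := by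
    funext l
    rw [← hMg, Matrix.mul_apply, Finset.sum_apply]
    exact Finset.sum_congr rfl fun j _ => rfl
  rw [h1, Finset.sum_eq_single (s k)]
  · rfl
  · intro j _ hj
    by_cases h0 : M k j = 0
    · rw [h0, zero_smul]
    · exact absurd (hlam ((hentry k j h0).trans (hentry k (s k) (hs k)).symm)) hj
  · intro h
    exact absurd (Finset.mem_univ _) h

/-- **A pair of counterexamples with `d - 1` common factors.** -/
theorem exists_pair (hd : 3 ≤ d) {g : Matrix (Fin d) (Fin d) ℝ} (hg : g.det ≠ 0) {ν : ℝ}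
    (hν : 0 < ν) (hnu : HasNu g ν) (hint : ¬ PropInt g) :
    ∃ (i j : Fin d), i ≠ j ∧ ∃ h ∈ closure (Orb g), transvection i j 1 * h ∈ closure (Orb g) := by
  obtain ⟨s, c, hs, hsd, hcard, hroot, -⟩ := exists_classes hd hg hν hnu hint
  obtain ⟨i, j, hij, hc⟩ : ∃ i j : Fin d, i ≠ j ∧ c i = c j := by
    have h1 := hcard ⟨0, by omega⟩
    rw [← h1, Nat.card_eq_fintype_card, Fintype.one_lt_card_iff] at hs
    obtain ⟨⟨a, ha⟩, ⟨b, hb⟩, hab⟩ := hs
    exact ⟨a, b, fun h => hab (Subtype.ext h), ha.trans hb.symm⟩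
  exact ⟨i, j, hij, hroot i j hij hc 1⟩

end Pool.Agent.Q208.MT
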